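import Pool.Agent.Helper96.ME.Defs

/-!
FWD: the symbol of a potential satisfies the relations.
-/

set_option autoImplicit false

namespace Pool.Agent.Helper96.ME

open Pool.Agent.Helper96.MP
open scoped MatrixGroups

lemma fwd_cls (hC : ST_COS) {Q : ℕ} (hQ : 1 ≤ Q) (δ y : SL(2, ℤ)) (h : (Q : ℤ) ∣ δ 1 0) :
    cls Q (δ * y) = cls Q y := by
  symm
  rw [(hC Q hQ).2, mul_inv_cancel_right, CongruenceSubgroup.Gamma0_mem]
  exact (ZMod.intCast_zmod_eq_zero_iff_dvd _ _).2 h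

lemma fwd_rd (M : ℕ) (g : SL(2, ℤ)) (i j : Fin 2) : rd M g i j = ((g i j : ℤ) : ZMod M) := rfl

lemma fwd_rd_mul (M : ℕ) (g h : SL(2, ℤ)) : rd M (g * h) = rd M g * rd M h := by
  unfold rd
  exact map_mul _ g h

lemma fwd_mul (g h : SL(2, ℤ)) :
    (g * h) 0 0 = g 0 0 * h 0 0 + g 0 1 * h 1 0 ∧ (g * h) 0 1 = g 0 0 * h 0 1 + g 0 1 * h 1 1 ∧
    (g * h) 1 0 = g 1 0 * h 0 0 + g 1 1 * h 1 0 ∧ (g * h) 1 1 = g 1 0 * h 0 1 + g 1 1 * h 1 1 := by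
  refine ⟨?_, ?_, ?_, ?_⟩ <;>
    rw [Matrix.SpecialLinearGroup.coe_mul, Matrix.mul_apply, Fin.sum_univ_two]

lemma fwd_det (g : SL(2, ℤ)) : g 0 0 * g 1 1 - g 0 1 * g 1 0 = 1 := by
  have h := g.2
  rwa [Matrix.det_fin_two] at h

/-- the columns of `y` give nonzero pairs -/
lemma fwd_ne0 (g : SL(2, ℤ)) (M : ℤ) (hM : M ≠ 0) : g 0 0 ≠ 0 ∨ M * g 1 0 ≠ 0 := by
  by_contra hcon
  push Not at hcon
  have h1 : g 1 0 = 0 := (mul_eq_zero.1 hcon.2).resolve_left hM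
  have := fwd_det g
  rw [hcon.1, h1] at this
  simp at this

lemma fwd_ne1 (g : SL(2, ℤ)) (M : ℤ) (hM : M ≠ 0) : g 0 1 ≠ 0 ∨ M * g 1 1 ≠ 0 := by
  by_contra hcon
  push Not at hcon
  have h1 : g 1 1 = 0 := (mul_eq_zero.1 hcon.2).resolve_left hM
  have := fwd_det g
  rw [hcon.1, h1] at this
  simp at this

/-- the transformation under matrices of `Γ₀(Q)` which are diagonal modulo `M` -/
lemma fwd_tr {M Q : ℕ} (hQM : Nat.Coprime Q M) {C : ℤ → ℤ → ℝ}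
    (hE : EqC (Q * M ^ 2) C) (δ : SL(2, ℤ)) (h1 : (Q : ℤ) ∣ δ 1 0) (h2 : (M : ℤ) ∣ δ 1 0)
    (h3 : (M : ℤ) ∣ δ 0 1) : ∃ κ : ℝ, ∀ x y : ℤ, (x ≠ 0 ∨ (M : ℤ) * y ≠ 0) →
      C (δ 0 0 * x + δ 0 1 * y) (M * (δ 1 0 * x + δ 1 1 * y)) = C x (M * y) + κ := by
  obtain ⟨k, hk⟩ := h3
  refine ⟨C (δ 0 0) (M * δ 1 0) - C 1 0, fun x y hxy => ?_⟩
  have hg : G0 (Q * M ^ 2) (δ 0 0) k (M * δ 1 0) (δ 1 1) := by
    constructor
    · have := fwd_det δ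
      rw [hk] at this
      linear_combination this
    · have hc : IsCoprime (Q : ℤ) (M : ℤ) := Nat.isCoprime_iff_coprime.2 hQM
      obtain ⟨t, ht⟩ := hc.mul_dvd h1 h2
      refine ⟨t, ?_⟩
      rw [ht]
      push_cast
      ring
  have := hE _ _ _ _ hg x (M * y) hxy
  rw [← this, hk]
  congr 1 <;> ring

theorem st_FWD (hT : ST_TILW) (hL : ST_LFT) (hC : ST_COS) : ST_FWD := by
  intro M Q a ε C w hM hQ hQM hP hw
  have hM0 : (M : ℤ) ≠ 0 := by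
    have : M ≠ 0 := by omega
    exact_mod_cast this
  have hneg : ∀ x y : ℤ, C (-x) (-y) = C x y := by
    intro x y
    have := hP.hom (-1) x y (by norm_num)
    simpa using this
  constructor
  · intro u g z
    obtain ⟨y, hy1, hy2⟩ := (hL M Q hM hQ hQM).2 g z
    obtain ⟨hd1, hd2⟩ := (hL M Q hM hQ hQM).1 (dg u)
    set δ := lf M Q (dg u) with hδ
    have e1 : rd M (δ * y) = dg u * g := by rw [fwd_rd_mul, hd2, hy1]
    have e2 : cls Q (δ * y) = z := by rw [fwd_cls hC hQ δ y hd1, hy2]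
    have h10 : (M : ℤ) ∣ δ 1 0 := by
      rw [← ZMod.intCast_zmod_eq_zero_iff_dvd, ← fwd_rd, hd2]
      rfl
    have h01 : (M : ℤ) ∣ δ 0 1 := by
      rw [← ZMod.intCast_zmod_eq_zero_iff_dvd, ← fwd_rd, hd2]
      rfl
    obtain ⟨κ, hκ⟩ := fwd_tr hQM hP.eqv δ hd1 h10 h01
    rw [← e1, ← e2, hw (δ * y)]
    obtain ⟨m1, m2, m3, m4⟩ := fwd_mul δ y
    rw [m1, m2, m3, m4, hκ _ _ (fwd_ne0 y _ hM0), hκ _ _ (fwd_ne1 y _ hM0), ← hy1]
    have e3 : cls Q (δ * y) = cls Q y := fwd_cls hC hQ δ y hd1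
    rw [e3, hw y]
    ring
  · intro y
    rw [hw, hw]
    obtain ⟨m1, m2, m3, m4⟩ := fwd_mul y ModularGroup.S
    rw [m1, m2, m3, m4]
    have s00 : ModularGroup.S 0 0 = 0 := rfl
    have s01 : ModularGroup.S 0 1 = -1 := rfl
    have s10 : ModularGroup.S 1 0 = 1 := rfl
    have s11 : ModularGroup.S 1 1 = 0 := rfl
    rw [s00, s01, s10, s11]
    have h := hneg (y 0 0) (M * y 1 0)
    have e1 : y 0 0 * 0 + y 0 1 * 1 = y 0 1 := by ring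
    have e2 : (M : ℤ) * (y 1 0 * 0 + y 1 1 * 1) = M * y 1 1 := by ring
    have e3 : y 0 0 * -1 + y 0 1 * 0 = -y 0 0 := by ring
    have e4 : (M : ℤ) * (y 1 0 * -1 + y 1 1 * 0) = -(M * y 1 0) := by ring
    rw [e1, e2, e3, e4, h]
    ring
  · intro y
    rw [hw, hw, hw]
    obtain ⟨m1, m2, m3, m4⟩ := fwd_mul y mR
    obtain ⟨n1, n2, n3, n4⟩ := fwd_mul y (mR * mR)
    rw [m1, m2, m3, m4, n1, n2, n3, n4]
    have s00 : mR 0 0 = 1 := rfl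
    have s01 : mR 0 1 = -1 := rfl
    have s10 : mR 1 0 = 1 := rfl
    have s11 : mR 1 1 = 0 := rfl
    obtain ⟨r1, r2, r3, r4⟩ := fwd_mul mR mR
    rw [r1, r2, r3, r4, s00, s01, s10, s11]
    have h := hneg (y 0 0) (M * y 1 0)
    have h' := hneg (y 0 1) (M * y 1 1)
    have e1 : y 0 0 * 1 + y 0 1 * 1 = y 0 0 + y 0 1 := by ring
    have e2 : (M : ℤ) * (y 1 0 * 1 + y 1 1 * 1) = M * y 1 0 + M * y 1 1 := by ring
    have e3 : y 0 0 * -1 + y 0 1 * 0 = -y 0 0 := by ring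
    have e4 : (M : ℤ) * (y 1 0 * -1 + y 1 1 * 0) = -(M * y 1 0) := by ring
    have e5 : y 0 0 * (1 * 1 + -1 * 1) + y 0 1 * (1 * 1 + 0 * 1) = y 0 1 := by ring
    have e6 : (M : ℤ) * (y 1 0 * (1 * 1 + -1 * 1) + y 1 1 * (1 * 1 + 0 * 1)) = M * y 1 1 := by ring
    have e7 : y 0 0 * (1 * -1 + -1 * 0) + y 0 1 * (1 * -1 + 0 * 0) = -(y 0 0 + y 0 1) := by ring
    have e8 : (M : ℤ) * (y 1 0 * (1 * -1 + -1 * 0) + y 1 1 * (1 * -1 + 0 * 0)) =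
      -(M * y 1 0 + M * y 1 1) := by ring
    rw [e1, e2, e3, e4, e5, e6, e7, e8, h, hneg (y 0 0 + y 0 1) (M * y 1 0 + M * y 1 1)]
    ring
  · intro y
    obtain ⟨κ, hκ⟩ := hP.sign
    rw [hw, hw]
    have s00 : cj y 0 0 = y 0 0 := rfl
    have s01 : cj y 0 1 = -y 0 1 := rfl
    have s10 : cj y 1 0 = -y 1 0 := rfl
    have s11 : cj y 1 1 = y 1 1 := rfl
    rw [s00, s01, s10, s11, hκ _ _ (fwd_ne1 y _ hM0)]
    have e1 : (M : ℤ) * -y 1 0 = -(M * y 1 0) := by ring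
    have e2 : C (y 0 0) (-(M * y 1 0)) = C (-y 0 0) (M * y 1 0) := by
      rw [← hneg, neg_neg]
    rw [e1, e2, hκ _ _ (fwd_ne0 y _ hM0)]
    ring
  · intro l hl hlN hlb
    obtain ⟨h1, h2⟩ := hP.hecke l hl hlN hlb
    have hc : Nat.Coprime l (Q * M ^ 2) := (Nat.Prime.coprime_iff_not_dvd hl).2 hlN
    have key : ∀ (n : ℕ) (α : ℝ), 1 ≤ n → Nat.Coprime n (Q * M ^ 2) → HC n α C →
        HW M Q n α w := by
      intro n α hn hnc hH y F hF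
      rw [hT M Q n C w hM hQ hQM hn hnc hP.hom hP.eqv hw y F hF, Finset.sum_sub_distrib]
      obtain ⟨κ, hκ⟩ := hH
      rw [hκ _ _ (fwd_ne0 y _ hM0), hκ _ _ (fwd_ne1 y _ hM0), hw y]
      ring
    exact ⟨key l _ hl.one_le hc h1, key (l ^ 2) _ (Nat.one_le_pow _ _ hl.pos)
      (Nat.Coprime.pow_left 2 hc) h2⟩

end Pool.Agent.Helper96.ME
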